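import Mathlib

open Set Filter Topology Cardinal

namespace Pool.Agent.Results.MP_570618_gt.AllThreeFail

/-- The space of real continuous functions on `X` with the topology inherited from the
product `X → ℝ` (topology of pointwise convergence). -/
abbrev Cp (X : Type) [TopologicalSpace X] : Type := {f : X → ℝ // Continuous f}

/-- `X` is homeomorphic to a weakly compact subset of a real Banach space. -/
def IsEberleinCompact (X : Type) [TopologicalSpace X] : Prop :=
  ∃ (E : Type) (_ : NormedAddCommGroup E) (_ : NormedSpace ℝ E) (_ : CompleteSpace E)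
    (K : Set (WeakSpace ℝ E)), IsCompact K ∧ Nonempty (X ≃ₜ K)

/-- The tightness of a space: the least infinite cardinal `κ` such that every point in the
closure of a set `A` is in the closure of a subset of `A` with at most `κ` points. -/
noncomputable def tightness (Z : Type) [TopologicalSpace Z] : Cardinal.{0} :=
  sInf {κ : Cardinal.{0} | ℵ₀ ≤ κ ∧ ∀ (A : Set Z) (z : Z), z ∈ closure A →
    ∃ A' : Set Z, A' ⊆ A ∧ #A' ≤ κ ∧ z ∈ closure A'}

/-- A family of sets is a network if every open set is a union of members of the family. -/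
def IsNetwork {Z : Type} [TopologicalSpace Z] (N : Set (Set Z)) : Prop :=
  ∀ U : Set Z, IsOpen U → ∀ z ∈ U, ∃ M ∈ N, z ∈ M ∧ M ⊆ U

/-- The network weight: the least cardinality of a network. -/
noncomputable def networkWeight (Z : Type) [TopologicalSpace Z] : Cardinal.{0} :=
  sInf {κ : Cardinal.{0} | ∃ N : Set (Set Z), IsNetwork N ∧ #N = κ}

/-- `Z` is monolithic: the network weight of the closure of an infinite set `A` is at most
the cardinality of `A`. -/
def Monolithic (Z : Type) [TopologicalSpace Z] : Prop :=
  ∀ A : Set Z, A.Infinite → networkWeight (closure A) ≤ #A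

/-! ### The space `X` -/

/-- The discrete space underlying `X`. -/
def D (T : Type) : Type := ℕ ⊕ T

instance (T : Type) : TopologicalSpace (D T) := ⊥
instance (T : Type) : DiscreteTopology (D T) := ⟨rfl⟩

def pn (T : Type) (n : ℕ) : OnePoint (D T) := OnePoint.some (Sum.inl n : ℕ ⊕ T)
def pt {T : Type} (t : T) : OnePoint (D T) := OnePoint.some (Sum.inr t : ℕ ⊕ T)

lemma eberlein (T : Type) : IsEberleinCompact (OnePoint (D T)) := by
  classical
  let b : HilbertBasis (D T) ℝ (lp (fun _ : D T => ℝ) 2) := default
  have hv : Orthonormal ℝ b := b.orthonormal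
  let G : OnePoint (D T) → lp (fun _ : D T => ℝ) 2 := fun x => x.elim 0 (fun i => b i)
  let F : OnePoint (D T) → WeakSpace ℝ (lp (fun _ : D T => ℝ) 2) :=
    fun x => toWeakSpace ℝ _ (G x)
  have hF : Continuous F := by
    apply WeakBilin.continuous_of_continuous_eval
    intro φ
    change Continuous (fun x => φ (G x))
    rw [OnePoint.continuous_iff_from_discrete]
    have h1 : φ (G OnePoint.infty) = 0 := by
      change φ 0 = 0
      simp
    rw [h1]
    change Tendsto (fun i : D T => φ (b i)) cofinite (𝓝 0)
    set y := (InnerProductSpace.toDual ℝ (lp (fun _ : D T => ℝ) 2)).symm φ with hy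
    have h2 : ∀ i, φ (b i) = inner ℝ (b i) y := by
      intro i
      rw [real_inner_comm]
      have : φ = InnerProductSpace.toDual ℝ _ y := by simp [hy]
      rw [this]
      simp
    have h3 := (hv.inner_products_summable (x := y)).tendsto_cofinite_zero
    have h4 : Tendsto (fun i : D T => ‖φ (b i)‖) cofinite (𝓝 0) := by
      have h5 : Tendsto (fun i : D T => Real.sqrt (‖inner ℝ (b i) y‖ ^ 2)) cofinite (𝓝 (Real.sqrt 0)) :=
        (Real.continuous_sqrt.tendsto 0).comp h3
      rw [Real.sqrt_zero] at h5
      refine h5.congr ?_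
      intro i
      rw [h2 i, Real.sqrt_sq (norm_nonneg _)]
    exact tendsto_zero_iff_norm_tendsto_zero.2 h4
  have hG : Function.Injective G := by
    intro x y hxy
    induction x using OnePoint.rec with
    | infty =>
      induction y using OnePoint.rec with
      | infty => rfl
      | coe y => exact absurd hxy.symm (hv.ne_zero y)
    | coe x =>
      induction y using OnePoint.rec with
      | infty => exact absurd hxy (hv.ne_zero x)
      | coe y => exact congrArg _ (hv.linearIndependent.injective hxy)
  have hFi : Function.Injective F := fun x y h => hG ((toWeakSpace ℝ _).injective h)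
  have hemb : IsClosedEmbedding F := hF.isClosedEmbedding hFi
  refine ⟨lp (fun _ : D T => ℝ) 2, inferInstance, inferInstance, inferInstance, range F,
    isCompact_range hF, ⟨hemb.isEmbedding.toHomeomorph⟩⟩

section
variable {T : Type} [LinearOrder T] (e : T → T → ℕ)

/-- The functions `f_d`. -/
noncomputable def fdFun (d : T) : OnePoint (D T) → ℝ := fun x =>
  x.elim 0 (fun i => Sum.elim (fun _ : ℕ => (0 : ℝ))
    (fun b : T => if b = d then 1 else if b < d then 1 / (2 + (e d b : ℝ)) else 0) i)

lemma fdFun_pn (d : T) (n : ℕ) : fdFun e d (pn T n) = 0 := rfl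

lemma fdFun_pt (d b : T) : fdFun e d (pt b) =
    if b = d then 1 else if b < d then 1 / (2 + (e d b : ℝ)) else 0 := rfl

lemma fdFun_continuous (he : ∀ d, InjOn (e d) (Iio d)) (d : T) : Continuous (fdFun e d) := by
  rw [OnePoint.continuous_iff_from_discrete]
  change Tendsto (fun i : ℕ ⊕ T => Sum.elim (fun _ : ℕ => (0 : ℝ))
    (fun b : T => if b = d then 1 else if b < d then 1 / (2 + (e d b : ℝ)) else 0) i)
    cofinite (𝓝 0)
  rw [Metric.tendsto_nhds]
  intro ε hε
  rw [Filter.eventually_cofinite]
  obtain ⟨N, hN⟩ := exists_nat_gt (1 / ε)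
  have hfin : (Sum.inr '' (insert d (Iio d ∩ (e d) ⁻¹' (Iic N))) : Set (ℕ ⊕ T)).Finite := by
    apply Set.Finite.image
    apply Set.Finite.insert
    have h1 : ((e d) ⁻¹' (Iic N) ∩ Iio d).Finite := by
      have : ((e d) '' ((e d) ⁻¹' (Iic N) ∩ Iio d)).Finite :=
        (Set.finite_Iic N).subset (by rintro _ ⟨x, hx, rfl⟩; exact hx.1)
      exact this.of_finite_image ((he d).mono inter_subset_right)
    rw [inter_comm]; exact h1
  refine hfin.subset ?_
  rintro (n | b) hx
  · exact absurd (by simpa using hε) hx
  · refine ⟨b, ?_, rfl⟩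
    by_cases hbd : b = d
    · exact Or.inl hbd
    · right
      by_cases hlt : b < d
      · refine ⟨hlt, ?_⟩
        simp only [Set.mem_ofPred_eq, Sum.elim_inr, hbd, if_false, hlt, if_true, dist_zero_right,
          not_lt] at hx
        simp only [mem_preimage, mem_Iic]
        by_contra hcon
        push Not at hcon
        have h2 : (N : ℝ) < e d b := by exact_mod_cast hcon
        have h3 : 0 < 2 + (e d b : ℝ) := by positivity
        rw [Real.norm_of_nonneg (by positivity), le_div_iff₀ h3] at hx
        have h4 : 1 < ε * N := by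
          rw [div_lt_iff₀ hε] at hN
          linarith [mul_comm ε (N : ℝ)]
        nlinarith
      · simp [hbd, hlt] at hx
        exact absurd hx (by linarith)

noncomputable def fd (he : ∀ d, InjOn (e d) (Iio d)) (d : T) : Cp (OnePoint (D T)) :=
  ⟨fdFun e d, fdFun_continuous e he d⟩

/-- The dense subspace `S`. -/
def SS (he : ∀ d, InjOn (e d) (Iio d)) : Set (Cp (OnePoint (D T))) :=
  {f | (∃ n, f.1 (pn T n) ≠ 0) ∨ ∃ d, f = fd e he d}

lemma dense_SS (he : ∀ d, InjOn (e d) (Iio d)) : Dense (SS e he) := by
  classical
  intro f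
  let F : ℕ → OnePoint (D T) → ℝ := fun k => Function.update f.1 (pn T k) 1
  have hF : ∀ k, Continuous (F k) := by
    intro k
    rw [OnePoint.continuous_iff_from_discrete]
    have h0 : F k OnePoint.infty = f.1 OnePoint.infty := by
      apply Function.update_of_ne
      exact fun h => OnePoint.infty_ne_coe _ h
    rw [h0]
    have h1 := (OnePoint.continuous_iff_from_discrete _).1 f.2
    refine h1.congr' ?_
    rw [Filter.EventuallyEq, Filter.eventually_cofinite]
    refine (Set.finite_singleton (Sum.inl k : ℕ ⊕ T)).subset ?_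
    intro x hx
    by_contra hne
    apply hx
    symm
    apply Function.update_of_ne
    intro h
    exact hne (OnePoint.coe_injective h)
  have hlim : Tendsto (fun k => (⟨F k, hF k⟩ : Cp (OnePoint (D T)))) atTop (𝓝 f) := by
    rw [tendsto_subtype_rng, tendsto_pi_nhds]
    intro x
    refine tendsto_const_nhds.congr' ?_
    by_cases hx : ∃ k, x = pn T k
    · obtain ⟨k, rfl⟩ := hx
      filter_upwards [eventually_gt_atTop k] with m hm
      symm
      apply Function.update_of_ne
      intro h
      have := OnePoint.coe_injective h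
      have h' : (Sum.inl k : ℕ ⊕ T) = Sum.inl m := this
      have := Sum.inl_injective h'
      omega
    · filter_upwards with m
      symm
      apply Function.update_of_ne
      intro h
      exact hx ⟨m, h⟩
  refine mem_closure_of_tendsto hlim (Eventually.of_forall fun k => Or.inl ⟨k, ?_⟩)
  change F k (pn T k) ≠ 0
  simp [F]

/-- constant function `2` -/
def fi (T : Type) : Cp (OnePoint (D T)) := ⟨fun _ => 2, continuous_const⟩

lemma fd_mem (he : ∀ d, InjOn (e d) (Iio d)) (d : T) : fd e he d ∈ SS e he := Or.inr ⟨d, rfl⟩

lemma fi_mem (he : ∀ d, InjOn (e d) (Iio d)) : fi T ∈ SS e he := Or.inl ⟨0, by simp [fi]⟩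

theorem key (he : ∀ d, InjOn (e d) (Iio d)) (hT : ∀ d : T, (Iic d).Countable)
    (hb : ∀ P : Set T, P.Countable → ∃ ξ, P ⊆ Iio ξ) (P : Set T) (hP : P.Countable) :
    ∃ φ : SS e he → ℝ, Continuous φ ∧ (∀ d ∈ P, φ ⟨fd e he d, fd_mem e he d⟩ = 0) ∧
      (∀ d, d ∉ P → φ ⟨fd e he d, fd_mem e he d⟩ = 1) ∧ φ ⟨fi T, fi_mem e he⟩ = 1 := by
  classical
  obtain ⟨ξ, hξ⟩ := hb P hP
  have : Countable (Iic ξ) := (hT ξ).to_subtype
  let ι : ℕ ⊕ Iic ξ → OnePoint (D T) := Sum.elim (fun n => pn T n) (fun b => pt b.1)
  let r : SS e he → (ℕ ⊕ Iic ξ → ℝ) := fun s a => s.1.1 (ι a)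
  have hr : Continuous r := by
    refine continuous_pi fun a => ?_
    exact (continuous_apply (ι a)).comp (continuous_subtype_val.comp continuous_subtype_val)
  let Z := range r
  let R : SS e he → Z := fun s => ⟨r s, s, rfl⟩
  have hR : Continuous R := hr.subtype_mk _
  have hev : ∀ a, Continuous (fun z : Z => z.1 a) := fun a =>
    (continuous_apply a).comp continuous_subtype_val
  let C0 : Set Z := closure (R '' {s | ∃ d ∈ P, s = ⟨fd e he d, fd_mem e he d⟩})
  let C1 : Set Z := closure (R '' {s | (∃ d, d ∉ P ∧ s = ⟨fd e he d, fd_mem e he d⟩) ∨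
    s = ⟨fi T, fi_mem e he⟩})
  have hdisj : Disjoint C0 C1 := by
    rw [Set.disjoint_left]
    rintro ⟨_, s, rfl⟩ h0 h1
    -- values at the points of `ℕ` vanish
    have hz : ∀ n, s.1.1 (pn T n) = 0 := by
      intro n
      have hc : IsClosed {z : Z | z.1 (Sum.inl n) = 0} := isClosed_eq (hev _) continuous_const
      have := closure_minimal (s := R '' {s | ∃ d ∈ P, s = ⟨fd e he d, fd_mem e he d⟩})
        (t := {z : Z | z.1 (Sum.inl n) = 0}) (by
          rintro _ ⟨_, ⟨d, _, rfl⟩, rfl⟩
          rfl) hc h0
      exact this
    obtain ⟨f, hf⟩ := s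
    rcases hf with ⟨n, hn⟩ | ⟨c, rfl⟩
    · exact hn (hz n)
    · rcases le_or_gt c ξ with hc | hc
      · -- near `f_c` there is no other point
        have hpt : ∀ d, (1 / 2 : ℝ) < fdFun e d (pt c) → d = c := by
          intro d hd
          rw [fdFun_pt] at hd
          by_contra hne
          rw [if_neg (fun h => hne h.symm)] at hd
          split_ifs at hd with hlt
          · rw [div_lt_div_iff₀ (by norm_num) (by positivity)] at hd
            have : (0 : ℝ) ≤ e d c := by positivity
            linarith
          · norm_num at hd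
        have ho : IsOpen {z : Z | (1 / 2 : ℝ) < z.1 (Sum.inr ⟨c, hc⟩) ∧ z.1 (Sum.inl 0) < 1} :=
          (isOpen_lt continuous_const (hev _)).inter (isOpen_lt (hev _) continuous_const)
        have hmem : (⟨r ⟨fd e he c, Or.inr ⟨c, rfl⟩⟩, ⟨_, rfl⟩⟩ : Z) ∈
            {z : Z | (1 / 2 : ℝ) < z.1 (Sum.inr ⟨c, hc⟩) ∧ z.1 (Sum.inl 0) < 1} := by
          refine ⟨?_, ?_⟩
          · change (1 / 2 : ℝ) < fdFun e c (pt c)
            rw [fdFun_pt, if_pos rfl]
            norm_num
          · change fdFun e c (pn T 0) < 1
            rw [fdFun_pn]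
            norm_num
        obtain ⟨_, hz0, ⟨s0, ⟨d0, hd0, rfl⟩, rfl⟩⟩ := mem_closure_iff.1 h0 _ ho hmem
        obtain ⟨_, hz1, ⟨s1, hs1, rfl⟩⟩ := mem_closure_iff.1 h1 _ ho hmem
        have hc0 : d0 = c := hpt d0 hz0.1
        rcases hs1 with ⟨d1, hd1, rfl⟩ | rfl
        · have hc1 : d1 = c := hpt d1 hz1.1
          exact hd1 (hc1 ▸ hc0 ▸ hd0)
        · have : (2 : ℝ) < 1 := hz1.2
          norm_num at this
      · -- value at `ξ`
        have hcl : IsClosed {z : Z | z.1 (Sum.inr ⟨ξ, le_refl ξ⟩) = 0} :=
          isClosed_eq (hev _) continuous_const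
        have := closure_minimal (s := R '' {s | ∃ d ∈ P, s = ⟨fd e he d, fd_mem e he d⟩})
          (t := {z : Z | z.1 (Sum.inr ⟨ξ, le_refl ξ⟩) = 0}) (by
            rintro _ ⟨_, ⟨d, hd, rfl⟩, rfl⟩
            change fdFun e d (pt ξ) = 0
            have hlt : d < ξ := hξ hd
            rw [fdFun_pt, if_neg hlt.ne', if_neg (not_lt.2 hlt.le)]) hcl h0
        have h2 : fdFun e c (pt ξ) = 0 := this
        rw [fdFun_pt, if_neg hc.ne, if_pos hc] at h2
        have h3 : (0 : ℝ) < 1 / (2 + (e c ξ : ℝ)) := by positivity
        linarith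
  obtain ⟨φ, hφ0, hφ1, -⟩ := exists_continuous_zero_one_of_isClosed (X := Z)
    (s := C0) (t := C1) isClosed_closure isClosed_closure hdisj
  refine ⟨fun s => φ (R s), φ.continuous.comp hR, ?_, ?_, ?_⟩
  · intro d hd
    exact hφ0 (subset_closure ⟨_, ⟨d, hd, rfl⟩, rfl⟩)
  · intro d hd
    exact hφ1 (subset_closure ⟨_, Or.inl ⟨d, hd, rfl⟩, rfl⟩)
  · exact hφ1 (subset_closure ⟨_, Or.inr rfl, rfl⟩)

end


/-! ### The compact set `B` -/

section
variable {T : Type} [LinearOrder T]

/-- nodes on the branch of `x` -/
def node (x : ℕ → Bool) (k : ℕ) : List Bool := (List.range k).map x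

lemma node_inj (x : ℕ → Bool) : Function.Injective (node x) := by
  intro k l h
  have := congrArg List.length h
  simpa [node] using this

lemma node_ad {x y : ℕ → Bool} (h : x ≠ y) : ∃ m, ∀ k, m < k → node x k ∉ range (node y) := by
  obtain ⟨m, hm⟩ := Function.ne_iff.1 h
  refine ⟨m, fun k hk => ?_⟩
  rintro ⟨l, hl⟩
  have h1 : l = k := by
    have := congrArg List.length hl
    simpa [node] using this
  subst h1
  apply hm
  have h2 := congrArg (fun L : List Bool => L[m]?) hl
  simp only [node, List.getElem?_map, List.getElem?_range hk, Option.map_some,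
    Option.some.injEq] at h2
  exact h2.symm

/-- Index set of the points different from `∞`; also the index set of the coordinates. -/
abbrev Pt (T : Type) : Type := T ⊕ (T ⊕ List Bool)

/-- `M x j p` : the `j`-th countable clopen set contains the point `p`. -/
def M (x : T → ℕ → Bool) : Pt T → Pt T → Prop
  | Sum.inl a, Sum.inl α => α ≤ a
  | Sum.inl _, Sum.inr _ => False
  | Sum.inr (Sum.inl _), Sum.inl _ => False
  | Sum.inr (Sum.inl s), Sum.inr (Sum.inl t) => s = t
  | Sum.inr (Sum.inl s), Sum.inr (Sum.inr n) => n ∈ range (node (x s))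
  | Sum.inr (Sum.inr _), Sum.inl _ => False
  | Sum.inr (Sum.inr _), Sum.inr (Sum.inl _) => False
  | Sum.inr (Sum.inr m), Sum.inr (Sum.inr n) => m = n

lemma M_countable (x : T → ℕ → Bool) (hT : ∀ d : T, (Iic d).Countable) (j : Pt T) :
    {p | M x j p}.Countable := by
  rcases j with a | s | m
  · refine ((hT a).image Sum.inl).mono ?_
    rintro (α | t | n) h
    · exact ⟨α, h, rfl⟩
    · exact h.elim
    · exact h.elim
  · have hc : (range (fun n : List Bool => (Sum.inr (Sum.inr n) : Pt T))).Countable :=
      countable_range _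
    refine (hc.insert (Sum.inr (Sum.inl s))).mono ?_
    rintro (α | t | n) h
    · exact h.elim
    · have h' : s = t := h
      subst h'
      exact Or.inl rfl
    · exact Or.inr ⟨n, rfl⟩
  · have hc : (range (fun n : List Bool => (Sum.inr (Sum.inr n) : Pt T))).Countable :=
      countable_range _
    refine hc.mono ?_
    rintro (α | t | n) h
    · exact h.elim
    · exact h.elim
    · exact ⟨n, rfl⟩

open Classical in
/-- The points of `B` as functions on the coordinates (`none` is the point at infinity). -/
noncomputable def emb (x : T → ℕ → Bool) (p : Option (Pt T)) (j : Pt T) : ℝ :=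
  p.elim 1 (fun q => if M x j q then 0 else 1)

lemma emb_none (x : T → ℕ → Bool) (j : Pt T) : emb x none j = 1 := rfl

lemma emb_of (x : T → ℕ → Bool) {q : Pt T} {j : Pt T} (h : M x j q) : emb x (some q) j = 0 := by
  simp [emb, h]

lemma emb_of_not (x : T → ℕ → Bool) {q : Pt T} {j : Pt T} (h : ¬ M x j q) :
    emb x (some q) j = 1 := by
  simp [emb, h]

/-- Closed conditions describing `B` inside the Cantor cube. -/
def K (x : T → ℕ → Bool) : Set (Pt T → Bool) :=
  {z | (∀ a b : T, a ≤ b → z (Sum.inl a) = true → z (Sum.inl b) = true) ∧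
    (∀ (a : T) (q : T ⊕ List Bool), z (Sum.inl a) = true → z (Sum.inr q) = false) ∧
    (∀ m n : List Bool, m ≠ n → z (Sum.inr (Sum.inr m)) = true →
      z (Sum.inr (Sum.inr n)) = false) ∧
    (∀ (s : T) (n : List Bool), n ∈ range (node (x s)) → z (Sum.inr (Sum.inr n)) = true →
      z (Sum.inr (Sum.inl s)) = true) ∧
    (∀ (s : T) (n : List Bool), n ∉ range (node (x s)) → z (Sum.inr (Sum.inr n)) = true →
      z (Sum.inr (Sum.inl s)) = false) ∧
    (∀ (s t : T), s ≠ t → z (Sum.inr (Sum.inl s)) = true → z (Sum.inr (Sum.inl t)) = true →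
      ∃ n ∈ range (node (x s)) ∩ range (node (x t)), z (Sum.inr (Sum.inr n)) = true)}

omit [LinearOrder T] in
lemma isClosed_val (j : Pt T) (c : Bool) : IsClopen {z : Pt T → Bool | z j = c} := by
  have : IsClopen ({c} : Set Bool) := isClopen_discrete _
  exact this.preimage (continuous_apply j)

lemma isClosed_imp' {X : Type} [TopologicalSpace X] {p q : X → Prop}
    (hp : IsClopen {z | p z}) (hq : IsClosed {z | q z}) : IsClosed {z | p z → q z} :=
  isClosed_imp hp.isOpen hq

lemma isClosed_all {ι X : Type} [TopologicalSpace X] {p : ι → X → Prop}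
    (h : ∀ i, IsClosed {z | p i z}) : IsClosed {z | ∀ i, p i z} := by
  have : {z | ∀ i, p i z} = ⋂ i, {z | p i z} := by
    ext z; simp
  rw [this]
  exact isClosed_iInter h

lemma isClosed_imp_const {X : Type} [TopologicalSpace X] {c : Prop} {p : X → Prop}
    (h : c → IsClosed {z | p z}) : IsClosed {z | c → p z} := by
  by_cases hc : c
  · have : {z | c → p z} = {z | p z} := by ext z; simp [hc]
    rw [this]
    exact h hc
  · have : {z | c → p z} = Set.univ := by ext z; simp [hc]
    rw [this]
    exact isClosed_univ

lemma isClosed_and' {X : Type} [TopologicalSpace X] {p q : X → Prop}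
    (hp : IsClosed {z | p z}) (hq : IsClosed {z | q z}) : IsClosed {z | p z ∧ q z} :=
  hp.inter hq

lemma K_closed (x : T → ℕ → Bool) (hx : Function.Injective x) : IsClosed (K x) := by
  refine isClosed_and' ?_ (isClosed_and' ?_ (isClosed_and' ?_ (isClosed_and' ?_
    (isClosed_and' ?_ ?_))))
  · exact isClosed_all fun a => isClosed_all fun b => isClosed_imp_const fun _ =>
      isClosed_imp' (isClosed_val _ _) (isClosed_val _ _).isClosed
  · exact isClosed_all fun a => isClosed_all fun b =>
      isClosed_imp' (isClosed_val _ _) (isClosed_val _ _).isClosed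
  · exact isClosed_all fun a => isClosed_all fun b => isClosed_imp_const fun _ =>
      isClosed_imp' (isClosed_val _ _) (isClosed_val _ _).isClosed
  · exact isClosed_all fun a => isClosed_all fun b => isClosed_imp_const fun _ =>
      isClosed_imp' (isClosed_val _ _) (isClosed_val _ _).isClosed
  · exact isClosed_all fun a => isClosed_all fun b => isClosed_imp_const fun _ =>
      isClosed_imp' (isClosed_val _ _) (isClosed_val _ _).isClosed
  · refine isClosed_all fun s => isClosed_all fun t => isClosed_imp_const fun hst =>
      isClosed_imp' (isClosed_val _ _) (isClosed_imp' (isClosed_val _ _) ?_)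
    have hfin : (range (node (x s)) ∩ range (node (x t))).Finite := by
      obtain ⟨m, hm⟩ := node_ad (fun h => hst (hx h) : x s ≠ x t)
      refine ((Set.finite_Iic m).image (node (x s))).subset ?_
      rintro _ ⟨⟨k, rfl⟩, hk⟩
      refine ⟨k, ?_, rfl⟩
      by_contra hcon
      exact hm k (by simpa using hcon) hk
    have : {z : Pt T → Bool | ∃ n ∈ range (node (x s)) ∩ range (node (x t)),
        z (Sum.inr (Sum.inr n)) = true} = ⋃ n ∈ range (node (x s)) ∩ range (node (x t)),
        {z | z (Sum.inr (Sum.inr n)) = true} := by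
      ext z; simp
    rw [this]
    exact hfin.isClosed_biUnion fun n _ => (isClosed_val _ _).isClosed

lemma compact_emb [WellFoundedLT T] (x : T → ℕ → Bool) (hx : Function.Injective x) :
    IsCompact (range (emb x)) := by
  classical
  have hc : Continuous (fun (z : Pt T → Bool) (j : Pt T) => if z j = true then (0 : ℝ) else 1) := by
    refine continuous_pi fun j => ?_
    exact (continuous_of_discreteTopology (f := fun b : Bool => if b = true then (0 : ℝ) else 1)).comp
      (continuous_apply j)
  have himg : range (emb x) =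
      (fun (z : Pt T → Bool) (j : Pt T) => if z j = true then (0 : ℝ) else 1) '' (K x) := by
    apply Set.Subset.antisymm
    · rintro _ ⟨p, rfl⟩
      rcases p with _ | p
      · refine ⟨fun _ => false, ?_, ?_⟩
        · refine ⟨?_, ?_, ?_, ?_, ?_, ?_⟩ <;> simp
        · funext j; simp [emb]
      · refine ⟨fun j => decide (M x j p), ?_, ?_⟩
        · rcases p with α | t | n
          · refine ⟨?_, ?_, ?_, ?_, ?_, ?_⟩
            · intro a b hab h
              simp only [decide_eq_true_eq] at h ⊢
              exact le_trans h hab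
            · intro a q h
              simp only [decide_eq_false_iff_not]
              rcases q with q | q <;> exact fun h => h
            · intro m n _ h
              simp only [decide_eq_true_eq] at h
              exact h.elim
            · intro s n _ h
              simp only [decide_eq_true_eq] at h
              exact h.elim
            · intro s n _ h
              simp only [decide_eq_true_eq] at h
              exact h.elim
            · intro s t _ h
              simp only [decide_eq_true_eq] at h
              exact h.elim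
          · refine ⟨?_, ?_, ?_, ?_, ?_, ?_⟩
            · intro a b hab h
              simp only [decide_eq_true_eq] at h
              exact h.elim
            · intro a q h
              simp only [decide_eq_true_eq] at h
              exact h.elim
            · intro m n _ h
              simp only [decide_eq_true_eq] at h
              exact h.elim
            · intro s n _ h
              simp only [decide_eq_true_eq] at h
              exact h.elim
            · intro s n _ h
              simp only [decide_eq_true_eq] at h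
              exact h.elim
            · intro s t' hst h h'
              simp only [decide_eq_true_eq] at h h'
              exact absurd ((show s = t from h).trans (show t' = t from h').symm) hst
          · refine ⟨?_, ?_, ?_, ?_, ?_, ?_⟩
            · intro a b hab h
              simp only [decide_eq_true_eq] at h
              exact h.elim
            · intro a q h
              simp only [decide_eq_true_eq] at h
              exact h.elim
            · intro m n' hmn h
              simp only [decide_eq_true_eq, decide_eq_false_iff_not] at h ⊢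
              have h1 : m = n := h
              intro h2
              exact hmn (h1.trans (show n' = n from h2).symm)
            · intro s n' hn' h
              simp only [decide_eq_true_eq] at h ⊢
              have h1 : n' = n := h
              subst h1
              exact hn'
            · intro s n' hn' h
              simp only [decide_eq_true_eq, decide_eq_false_iff_not] at h ⊢
              have h1 : n' = n := h
              subst h1
              exact hn'
            · intro s t hst h h'
              simp only [decide_eq_true_eq] at h h'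
              refine ⟨n, ⟨h, h'⟩, ?_⟩
              simp only [decide_eq_true_eq]
              exact rfl
        · funext j
          by_cases h : M x j p
          · simp [emb, h]
          · simp [emb, h]
    · rintro _ ⟨z, ⟨h1, h2, h3, h4, h5, h6⟩, rfl⟩
      by_cases hA : ∃ a, z (Sum.inl a) = true
      · -- a point of the first kind
        let α := WellFounded.min (wellFounded_lt (α := T)) {a | z (Sum.inl a) = true} hA
        have hα : z (Sum.inl α) = true :=
          WellFounded.min_mem (wellFounded_lt (α := T)) {a | z (Sum.inl a) = true} hA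
        have hmin : ∀ a, z (Sum.inl a) = true → α ≤ a := fun a ha =>
          not_lt.1 (WellFounded.not_lt_min (wellFounded_lt (α := T)) {a | z (Sum.inl a) = true} ha)
        refine ⟨some (Sum.inl α), ?_⟩
        funext j
        rcases j with a | q
        · by_cases ha : z (Sum.inl a) = true
          · rw [emb_of x (show M x (Sum.inl a) (Sum.inl α) from hmin a ha)]
            simp [ha]
          · rw [emb_of_not x (show ¬ M x (Sum.inl a) (Sum.inl α) from
              fun h => ha (h1 _ _ h hα))]
            simp [ha]
        · have hq := h2 α q hα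
          rw [emb_of_not x (by rcases q with q | q <;> exact fun h => h)]
          simp [hq]
      · push Not at hA
        by_cases hN : ∃ n, z (Sum.inr (Sum.inr n)) = true
        · obtain ⟨n, hn⟩ := hN
          refine ⟨some (Sum.inr (Sum.inr n)), ?_⟩
          funext j
          rcases j with a | s | m
          · rw [emb_of_not x (show ¬ M x (Sum.inl a) (Sum.inr (Sum.inr n)) from fun h => h)]
            simp [hA a]
          · by_cases hs : n ∈ range (node (x s))
            · rw [emb_of x (show M x (Sum.inr (Sum.inl s)) (Sum.inr (Sum.inr n)) from hs)]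
              simp [h4 s n hs hn]
            · rw [emb_of_not x (show ¬ M x (Sum.inr (Sum.inl s)) (Sum.inr (Sum.inr n)) from hs)]
              simp [h5 s n hs hn]
          · by_cases hm : m = n
            · subst hm
              rw [emb_of x (show M x (Sum.inr (Sum.inr m)) (Sum.inr (Sum.inr m)) from rfl)]
              simp [hn]
            · rw [emb_of_not x (show ¬ M x (Sum.inr (Sum.inr m)) (Sum.inr (Sum.inr n)) from hm)]
              simp [h3 n m (Ne.symm hm) hn]
        · push Not at hN
          by_cases hS : ∃ s, z (Sum.inr (Sum.inl s)) = true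
          · obtain ⟨s, hs⟩ := hS
            refine ⟨some (Sum.inr (Sum.inl s)), ?_⟩
            funext j
            rcases j with a | t | m
            · rw [emb_of_not x (show ¬ M x (Sum.inl a) (Sum.inr (Sum.inl s)) from fun h => h)]
              simp [hA a]
            · by_cases hst : t = s
              · subst hst
                rw [emb_of x (show M x (Sum.inr (Sum.inl t)) (Sum.inr (Sum.inl t)) from rfl)]
                simp [hs]
              · rw [emb_of_not x (show ¬ M x (Sum.inr (Sum.inl t)) (Sum.inr (Sum.inl s)) from hst)]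
                have : z (Sum.inr (Sum.inl t)) ≠ true := by
                  intro ht
                  obtain ⟨n, _, hn⟩ := h6 s t (Ne.symm hst) hs ht
                  exact hN n hn
                simp [this]
            · rw [emb_of_not x (show ¬ M x (Sum.inr (Sum.inr m)) (Sum.inr (Sum.inl s)) from fun h => h)]
              simp [hN m]
          · push Not at hS
            refine ⟨none, ?_⟩
            funext j
            rw [emb_none]
            rcases j with a | t | m
            · simp [hA a]
            · simp [hS t]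
            · simp [hN m]
  rw [himg]
  exact (K_closed x hx).isCompact.image hc

end


/-! ### The three properties fail for `B` -/

section
variable {T : Type} [LinearOrder T] {x : T → ℕ → Bool} {W : Type} [TopologicalSpace W]
  {c : W → Pt T → ℝ} {p : Option (Pt T) → W}

lemma bounded_of_countable [Uncountable T] (hT : ∀ d : T, (Iic d).Countable) (P : Set T)
    (hP : P.Countable) : ∃ ξ, P ⊆ Iio ξ := by
  by_contra hcon
  push Not at hcon
  have : (Set.univ : Set T) ⊆ ⋃ q ∈ P, Iic q := by
    intro ξ _
    obtain ⟨q, hq, hq'⟩ := Set.not_subset.1 (hcon ξ)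
    simp only [mem_iUnion]
    exact ⟨q, hq, not_lt.1 hq'⟩
  exact Set.not_countable_univ ((hP.biUnion fun q _ => hT q).mono this)

lemma tendsto_inf [Uncountable T] (hT : ∀ d : T, (Iic d).Countable) (hc : IsInducing c)
    (hp : ∀ q, c (p q) = emb x q) :
    Tendsto (fun α : T => p (some (Sum.inl α))) atTop (𝓝 (p none)) := by
  rw [hc.tendsto_nhds_iff, tendsto_pi_nhds]
  intro j
  simp only [Function.comp_apply, hp, emb_none]
  rcases j with a | q
  · refine tendsto_const_nhds.congr' ?_
    obtain ⟨ξ, hξ⟩ := bounded_of_countable hT {a} (countable_singleton a)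
    filter_upwards [eventually_ge_atTop ξ] with α hα
    rw [emb_of_not x (show ¬ M x (Sum.inl a) (Sum.inl α) from
      not_le.2 (lt_of_lt_of_le (hξ rfl) hα))]
  · refine tendsto_const_nhds.congr fun α => ?_
    rw [emb_of_not x (by rcases q with q | q <;> exact fun h => h)]

omit [LinearOrder T] in
lemma cont_coord (hc : IsInducing c) (j : Pt T) : Continuous fun w => c w j :=
  (continuous_apply j).comp hc.continuous

/-- A closed set of points of the first kind cannot be countable and cluster at infinity. -/
lemma not_mem_closure [Uncountable T] (hT : ∀ d : T, (Iic d).Countable) (hc : IsInducing c)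
    (hp : ∀ q, c (p q) = emb x q) (A : Set W) (hA : A ⊆ range fun α : T => p (some (Sum.inl α)))
    (hcount : A.Countable) : p none ∉ closure A := by
  intro hmem
  -- choose indices
  have hch : ∀ w : A, ∃ α : T, p (some (Sum.inl α)) = w.1 := fun w => hA w.2
  choose α hα using hch
  have : Countable A := hcount.to_subtype
  obtain ⟨ξ, hξ⟩ := bounded_of_countable hT (range α) (countable_range α)
  have hcl : IsClosed {w | c w (Sum.inl ξ) = 0} := isClosed_eq (cont_coord hc _) continuous_const
  have hsub : A ⊆ {w | c w (Sum.inl ξ) = 0} := by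
    intro w hw
    have h1 : α ⟨w, hw⟩ < ξ := hξ ⟨_, rfl⟩
    have h2 : p (some (Sum.inl (α ⟨w, hw⟩))) = w := hα ⟨w, hw⟩
    change c w (Sum.inl ξ) = 0
    rw [← h2, hp]
    exact emb_of x (show M x (Sum.inl ξ) (Sum.inl (α ⟨w, hw⟩)) from h1.le)
  have h3 : c (p none) (Sum.inl ξ) = 0 := closure_minimal hsub hcl hmem
  rw [hp, emb_none] at h3
  norm_num at h3

lemma tight_fail [Uncountable T] (hT : ∀ d : T, (Iic d).Countable) (hc : IsInducing c)
    (hp : ∀ q, c (p q) = emb x q) : ℵ₀ < tightness W := by
  by_contra hcon
  push Not at hcon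
  have hne : {κ : Cardinal.{0} | ℵ₀ ≤ κ ∧ ∀ (A : Set W) (z : W), z ∈ closure A →
      ∃ A' : Set W, A' ⊆ A ∧ #A' ≤ κ ∧ z ∈ closure A'}.Nonempty := by
    refine ⟨max ℵ₀ #W, le_max_left _ _, fun A z hz => ⟨A, subset_rfl, ?_, hz⟩⟩
    exact (Cardinal.mk_set_le A).trans (le_max_right _ _)
  obtain ⟨-, h2⟩ := csInf_mem hne
  have : Nonempty T := by
    by_contra hemp
    rw [not_nonempty_iff] at hemp
    exact not_countable (α := T) inferInstance
  obtain ⟨A', hA', hcard, hmem⟩ := h2 (range fun α : T => p (some (Sum.inl α))) (p none)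
    (mem_closure_of_tendsto (tendsto_inf hT hc hp) (Eventually.of_forall fun α => ⟨α, rfl⟩))
  refine not_mem_closure hT hc hp A' hA' ?_ hmem
  exact Cardinal.le_aleph0_iff_set_countable.1 (hcard.trans hcon)

lemma seq_fail [Uncountable T] (hT : ∀ d : T, (Iic d).Countable) (hc : IsInducing c)
    (hp : ∀ q, c (p q) = emb x q) (hs : Function.Surjective p) : ¬ SequentialSpace W := by
  intro hseq
  have : Nonempty T := by
    by_contra hemp
    rw [not_nonempty_iff] at hemp
    exact not_countable (α := T) inferInstance
  have hsc : IsSeqClosed (range fun α : T => p (some (Sum.inl α))) := by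
    intro y w hy hw
    obtain ⟨q, rfl⟩ := hs w
    choose α hα using hy
    obtain ⟨ξ, hξ⟩ := bounded_of_countable hT (range α) (countable_range α)
    have h1 : Tendsto (fun n => c (y n) (Sum.inl ξ)) atTop (𝓝 (c (p q) (Sum.inl ξ))) :=
      ((cont_coord hc (Sum.inl ξ)).tendsto _).comp hw
    have h2 : ∀ n, c (y n) (Sum.inl ξ) = 0 := by
      intro n
      have hlt : α n < ξ := hξ ⟨n, rfl⟩
      have h3 : p (some (Sum.inl (α n))) = y n := hα n
      rw [← h3, hp]
      exact emb_of x (show M x (Sum.inl ξ) (Sum.inl (α n)) from hlt.le)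
    simp only [h2] at h1
    have h4 : c (p q) (Sum.inl ξ) = 0 := tendsto_nhds_unique h1 tendsto_const_nhds |>.symm ▸ rfl
    rw [hp] at h4
    rcases q with _ | (β | q)
    · rw [emb_none] at h4
      norm_num at h4
    · exact ⟨β, rfl⟩
    · rw [emb_of_not x (by rcases q with q | q <;> exact fun h => h)] at h4
      norm_num at h4
  have hcl := hsc.isClosed
  have hmem : p none ∈ closure (range fun α : T => p (some (Sum.inl α))) :=
    mem_closure_of_tendsto (tendsto_inf hT hc hp) (Eventually.of_forall fun α => ⟨α, rfl⟩)
  rw [hcl.closure_eq] at hmem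
  obtain ⟨α, hα'⟩ := hmem
  have hα : p (some (Sum.inl α)) = p none := hα'
  have h5 : c (p (some (Sum.inl α))) (Sum.inl α) = c (p none) (Sum.inl α) := by rw [hα]
  rw [hp, hp, emb_none, emb_of x (show M x (Sum.inl α) (Sum.inl α) from le_refl α)] at h5
  norm_num at h5

lemma tendsto_branch (hx : Function.Injective x) (hc : IsInducing c)
    (hp : ∀ q, c (p q) = emb x q) (t : T) :
    Tendsto (fun k : ℕ => p (some (Sum.inr (Sum.inr (node (x t) k))))) atTop
      (𝓝 (p (some (Sum.inr (Sum.inl t))))) := by
  rw [hc.tendsto_nhds_iff, tendsto_pi_nhds]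
  intro j
  simp only [Function.comp_apply, hp]
  refine tendsto_const_nhds.congr' ?_
  rcases j with a | s | m
  · filter_upwards with k
    rw [emb_of_not x (show ¬ M x (Sum.inl a) (Sum.inr (Sum.inl t)) from fun h => h),
      emb_of_not x (show ¬ M x (Sum.inl a) (Sum.inr (Sum.inr (node (x t) k))) from fun h => h)]
  · by_cases hst : s = t
    · subst hst
      filter_upwards with k
      rw [emb_of x (show M x (Sum.inr (Sum.inl s)) (Sum.inr (Sum.inl s)) from rfl),
        emb_of x (show M x (Sum.inr (Sum.inl s)) (Sum.inr (Sum.inr (node (x s) k))) from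
          ⟨k, rfl⟩)]
    · obtain ⟨m, hm⟩ := node_ad (fun h => hst (hx h).symm : x t ≠ x s)
      filter_upwards [eventually_gt_atTop m] with k hk
      rw [emb_of_not x (show ¬ M x (Sum.inr (Sum.inl s)) (Sum.inr (Sum.inl t)) from hst),
        emb_of_not x (show ¬ M x (Sum.inr (Sum.inl s)) (Sum.inr (Sum.inr (node (x t) k))) from
          hm k hk)]
  · filter_upwards [eventually_gt_atTop m.length] with k hk
    rw [emb_of_not x (show ¬ M x (Sum.inr (Sum.inr m)) (Sum.inr (Sum.inl t)) from fun h => h),
      emb_of_not x (show ¬ M x (Sum.inr (Sum.inr m)) (Sum.inr (Sum.inr (node (x t) k))) from ?_)]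
    intro h
    have h1 : m = node (x t) k := h
    have h2 : m.length = k := by rw [h1]; simp [node]
    omega

lemma mono_fail [Uncountable T] (hx : Function.Injective x) (hc : IsInducing c)
    (hp : ∀ q, c (p q) = emb x q) : ¬ Monolithic W := by
  intro hmono
  set A : Set W := range fun n : List Bool => p (some (Sum.inr (Sum.inr n))) with hAdef
  have hAinf : A.Infinite := by
    refine Set.infinite_range_of_injective ?_
    intro m n h
    have h1 : c (p (some (Sum.inr (Sum.inr m)))) (Sum.inr (Sum.inr m)) =
        c (p (some (Sum.inr (Sum.inr n)))) (Sum.inr (Sum.inr m)) := by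
      have h' : p (some (Sum.inr (Sum.inr m))) = p (some (Sum.inr (Sum.inr n))) := h
      rw [h']
    rw [hp, hp, emb_of x (show M x (Sum.inr (Sum.inr m)) (Sum.inr (Sum.inr m)) from rfl)] at h1
    by_contra hne
    rw [emb_of_not x (show ¬ M x (Sum.inr (Sum.inr m)) (Sum.inr (Sum.inr n)) from hne)] at h1
    norm_num at h1
  have hAc : A.Countable := countable_range _
  have hle : networkWeight (closure A) ≤ ℵ₀ := (hmono A hAinf).trans hAc.le_aleph0
  have hne : {κ : Cardinal.{0} | ∃ N : Set (Set (closure A)), IsNetwork N ∧ #N = κ}.Nonempty :=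
    ⟨_, Set.univ, fun U _ z hz => ⟨U, mem_univ _, hz, subset_rfl⟩, rfl⟩
  obtain ⟨N, hN, hNc⟩ := csInf_mem hne
  have hNcount : N.Countable := by
    apply Cardinal.le_aleph0_iff_set_countable.1
    rw [hNc]
    exact hle
  have hmem : ∀ t : T, p (some (Sum.inr (Sum.inl t))) ∈ closure A := fun t =>
    mem_closure_of_tendsto (tendsto_branch hx hc hp t) (Eventually.of_forall fun k => ⟨_, rfl⟩)
  let a : T → closure A := fun t => ⟨p (some (Sum.inr (Sum.inl t))), hmem t⟩
  let V : T → Set (closure A) := fun t => {w | c w.1 (Sum.inr (Sum.inl t)) < 1 / 2}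
  have hVo : ∀ t, IsOpen (V t) := fun t =>
    isOpen_lt ((cont_coord hc _).comp continuous_subtype_val) continuous_const
  have hVa : ∀ s t, a s ∈ V t ↔ t = s := by
    intro s t
    change c (p (some (Sum.inr (Sum.inl s)))) (Sum.inr (Sum.inl t)) < 1 / 2 ↔ t = s
    rw [hp]
    by_cases hst : t = s
    · rw [emb_of x (show M x (Sum.inr (Sum.inl t)) (Sum.inr (Sum.inl s)) from hst)]
      simp [hst]
    · rw [emb_of_not x (show ¬ M x (Sum.inr (Sum.inl t)) (Sum.inr (Sum.inl s)) from hst)]
      simp only [hst, iff_false]
      norm_num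
  have hch : ∀ t, ∃ Q ∈ N, a t ∈ Q ∧ Q ⊆ V t := fun t => hN (V t) (hVo t) (a t) ((hVa t t).2 rfl)
  choose Q hQN hQa hQV using hch
  have hinj : Function.Injective (fun t => (⟨Q t, hQN t⟩ : N)) := by
    intro s t hst
    have h1 : Q s = Q t := congrArg Subtype.val hst
    have h2 : a t ∈ V s := hQV s (h1 ▸ hQa t)
    exact (hVa t s).1 h2
  have : Countable N := hNcount.to_subtype
  exact not_countable (α := T) hinj.countable

end

/-! ### Assembly -/

theorem main {T : Type} [LinearOrder T] [WellFoundedLT T] [Uncountable T]
    (hT : ∀ d : T, (Iic d).Countable) (x : T → ℕ → Bool) (hx : Function.Injective x)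
    (g : T ≃ Pt T) :
    ∃ S : Set (Cp (OnePoint (D T))), Dense S ∧
      ∃ (Y : Type) (_ : TopologicalSpace Y) (_ : T35Space Y) (φ : S → Y),
        Continuous φ ∧ Function.Surjective φ ∧
          ∃ B : Set Y, IsCompact B ∧ ℵ₀ < tightness B ∧ ¬ SequentialSpace B ∧
            ¬ Monolithic B := by
  classical
  have he : ∀ d : T, ∃ f : T → ℕ, InjOn f (Iio d) := fun d =>
    Set.countable_iff_exists_injOn.1 ((hT d).mono Iio_subset_Iic_self)
  choose e he using he
  have hb := bounded_of_countable hT
  have hkey := fun j : Pt T => key e he hT hb {d | M x j (g d)}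
    ((M_countable x hT j).preimage_of_injOn g.injective.injOn)
  choose ψ hψc hψ0 hψ1 hψi using hkey
  let Φ : SS e he → (Pt T → ℝ) := fun s j => ψ j s
  have hΦ : Continuous Φ := continuous_pi fun j => hψc j
  have hΦd : ∀ q : Pt T, Φ ⟨fd e he (g.symm q), fd_mem e he _⟩ = emb x (some q) := by
    intro q
    funext j
    by_cases h : M x j q
    · rw [emb_of x h]
      exact hψ0 j _ (by simpa using h)
    · rw [emb_of_not x h]
      exact hψ1 j _ (by simpa using h)
  have hΦi : Φ ⟨fi T, fi_mem e he⟩ = emb x none := by
    funext j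
    exact hψi j
  have hrange : ∀ q, emb x q ∈ range Φ := by
    rintro (_ | q)
    · exact ⟨_, hΦi⟩
    · exact ⟨_, hΦd q⟩
  refine ⟨SS e he, dense_SS e he, range Φ, inferInstance, inferInstance, rangeFactorization Φ,
    hΦ.subtype_mk _, rangeFactorization_surjective, {y | y.1 ∈ range (emb x)}, ?_, ?_, ?_, ?_⟩
  · rw [Subtype.isCompact_iff]
    have : (Subtype.val '' {y : range Φ | y.1 ∈ range (emb x)}) = range (emb x) := by
      ext z
      constructor
      · rintro ⟨y, hy, rfl⟩
        exact hy
      · rintro ⟨q, rfl⟩
        exact ⟨⟨emb x q, hrange q⟩, ⟨q, rfl⟩, rfl⟩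
    rw [this]
    exact compact_emb x hx
  all_goals
    let B : Set (range Φ) := {y | y.1 ∈ range (emb x)}
    let c : B → Pt T → ℝ := fun b => b.1.1
    let p : Option (Pt T) → B := fun q => ⟨⟨emb x q, hrange q⟩, ⟨q, rfl⟩⟩
    have hc : IsInducing c := IsInducing.subtypeVal.comp IsInducing.subtypeVal
    have hp : ∀ q, c (p q) = emb x q := fun q => rfl
    have hs : Function.Surjective p := by
      intro b
      obtain ⟨q, hq⟩ := b.2
      exact ⟨q, Subtype.ext (Subtype.ext hq)⟩
  · exact tight_fail hT hc hp
  · exact seq_fail hT hc hp hs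
  · exact mono_fail hx hc hp

/-- All three parts have a negative answer: there are an Eberlein compact space `X`, a dense
subspace `S` of `C_p(X)`, a Tychonoff continuous image `Y` of `S`, and a compact `B ⊆ Y` that has
uncountable tightness, is not sequential and is not monolithic. -/
theorem result :
    ∃ (X : Type) (_ : TopologicalSpace X), IsEberleinCompact X ∧
      ∃ S : Set (Cp X), Dense S ∧
        ∃ (Y : Type) (_ : TopologicalSpace Y) (_ : T35Space Y) (φ : S → Y),
          Continuous φ ∧ Function.Surjective φ ∧
            ∃ B : Set Y, IsCompact B ∧ ℵ₀ < tightness B ∧ ¬ SequentialSpace B ∧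
              ¬ Monolithic B := by
  let T : Type := (ℵ₁ : Cardinal.{0}).ord.ToType
  have hcard : #T = ℵ₁ := mk_ord_toType _
  have : Uncountable T := by
    rw [← Cardinal.aleph0_lt_mk_iff, hcard]
    exact aleph0_lt_aleph_one
  have hT : ∀ d : T, (Iic d).Countable := by
    intro d
    have h1 : (Iio d).Countable := by
      apply Cardinal.le_aleph0_iff_set_countable.1
      have := Cardinal.mk_Iio_lt d (by rw [hcard]; exact (Ordinal.type_toType _).symm)
      rw [hcard] at this
      have h0 : (ℵ₁ : Cardinal.{0}) = Order.succ ℵ₀ := succ_aleph0.symm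
      exact Order.lt_succ_iff.1 (this.trans_eq h0)
    rw [← Iio_insert]
    exact h1.insert d
  have hx : ∃ x : T → ℕ → Bool, Function.Injective x := by
    have : #T ≤ #(ℕ → Bool) := by
      rw [hcard]
      simpa using aleph_one_le_continuum
    obtain ⟨f⟩ := this
    exact ⟨f, f.injective⟩
  obtain ⟨x, hx⟩ := hx
  have hg : Nonempty (T ≃ Pt T) := by
    rw [← Cardinal.eq]
    have h1 : (ℵ₁ : Cardinal.{0}) + ℵ₀ = ℵ₁ :=
      Cardinal.add_eq_left (aleph0_le_aleph 1) (aleph0_le_aleph 1)
    have h2 : (ℵ₁ : Cardinal.{0}) + ℵ₁ = ℵ₁ := Cardinal.add_eq_self (aleph0_le_aleph 1)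
    simp [Pt, hcard, h1, h2]
  obtain ⟨g⟩ := hg
  exact ⟨OnePoint (D T), inferInstance, eberlein T, main hT x hx g⟩

end Pool.Agent.Results.MP_570618_gt.AllThreeFail
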